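import Pool.Agent.H72.PRK.S2
import Pool.Agent.H69.HYP.TYM
import Pool.Agent.H97.HYP.TY0
import Pool.Agent.H34.HYP.NON
import Pool.Agent.H37.AVS.LocB
import Pool.Agent.H74.HYP.UNR
import Pool.Agent.H70.HYP.NMU
import Pool.Agent.H5.AVS.RIP

/-!
# PRK, row TW2C: the converse of TW2
-/

set_option autoImplicit false

namespace Pool.PRK.TW2C51

open Polynomial Pool.HYP Pool.AVS

/-- Division modulo `f`. -/
theorem cancel {L : Type} [Field L] {f h h' s r : L[X]} (hh : IsCoprime h f)
    (hs : IsCoprime s f) (hd : f ∣ h * h' * s ^ 2 - r ^ 2) : ∃ z : L[X], f ∣ h' - h * z ^ 2 := by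
  obtain ⟨a, b, hab⟩ := hh.mul_left hs
  obtain ⟨q, hq⟩ := hd
  refine ⟨r * a, h' * (2 * b - b ^ 2 * f) + q * h * a ^ 2, ?_⟩
  linear_combination h * a ^ 2 * hq - h' * (1 - b * f + a * h * s) * hab

/-- Two classes of the same type are equal. -/
theorem key (hSQ : SQLKStmt) {L : Type} [Field L] {O : ValuationSubring L} {π : L}
    (hL : Loc L O π) (hA : IsAdicComplete (IsLocalRing.maximalIdeal O) O) {g : ℕ} {c : O}
    {γ : O[X]} (hg : 1 ≤ g) (hγ : OkL O g γ) {h h' : L[X]} {x : Ty}
    (hh : IsCoprime h (oL O ((X - C c) * γ))) (hN : NSq (oL O ((X - C c) * γ)) h)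
    (hx : TyL O π c γ x h) (hh' : IsCoprime h' (oL O ((X - C c) * γ)))
    (hN' : NSq (oL O ((X - C c) * γ)) h') (hx' : TyL O π c γ x h') :
    ∃ z : L[X], oL O ((X - C c) * γ) ∣ h' - h * z ^ 2 := by
  have h0 : TyL O π c γ 0 (h * h') := by
    have h1 := tym unr nmu L O π hL g c γ hg hγ h h' x x hh hh' hN hN' hx hx'
    have h2 : ∀ y : Ty, y + y = 0 := by decide
    rwa [h2] at h1
  have h1 : NSq (oL O ((X - C c) * γ)) (h * h') := by
    unfold NSq
    rw [map_mul, map_mul]
    exact IsSquare.mul hN hN'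
  obtain ⟨s, p, hs, hp, hp1⟩ := ty0_of unr L O π hL g c γ hg hγ (h * h') (hh.mul_left hh') h1 h0
  obtain ⟨s', -, hs'⟩ := hSQ L O π hL hA ((X - C c) * γ) p 1 ((monic_X_sub_C c).mul hγ.1)
    (by rw [hp1]; exact isCoprime_one_left)
    (by rw [hp1]; simp [rd])
  refine cancel (r := oL O s') hh hs ?_
  have h3 : oL O ((X - C c) * γ) ∣ oL O p - oL O s' ^ 2 := by
    obtain ⟨q, hq⟩ := hs'
    refine ⟨oL O q, ?_⟩
    have h4 := congrArg (oL O) hq
    simpa only [oL, Polynomial.map_mul, Polynomial.map_sub, Polynomial.map_pow] using h4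
  have h4 := dvd_add hp h3
  rwa [sub_add_sub_cancel] at h4

end Pool.PRK.TW2C51

namespace Pool.PRK

open Polynomial Pool.HYP Pool.AVS

theorem tw2c (hSQ : SQLKStmt) : TW2CStmt := by
  intro L _ O π hL hA g c γ hg hγ d hd h x hh hN hx hx2
  have hfO : oL O ((X - C c) * γ) = (X - C (c : L)) * oL O γ := TyZ.oL_lin O c γ
  have hz : ∀ y : ZMod 2, y = 0 ∨ y = 1 := by decide
  rcases hz x.1 with hx1 | hx1
  · -- type zero
    have hx0 : x = 0 := Prod.ext hx1 hx2
    subst hx0
    have h1 : TyL O π c γ 0 (1 : L[X]) := by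
      refine ⟨0, 1, ?_, ?_, ?_, ?_⟩
      · have e1 : rd O 1 = 1 := Polynomial.map_one _
        rw [e1]
        exact isCoprime_one_left
      · have e1 : oL O 1 = 1 := Polynomial.map_one _
        rw [e1, zpow_zero, C_1, mul_one, sub_self]
        exact dvd_zero _
      · exact Int.cast_zero
      · refine ⟨fun _ => ⟨1, ?_⟩, fun _ => rfl⟩
        have hv : ((0 : Ty).1).val = 0 := rfl
        rw [hv, pow_zero, eval_one]
    have h2 : NSq (oL O ((X - C c) * γ)) 1 := by
      refine ⟨1, ?_⟩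
      rw [map_one, map_one, one_mul]
    obtain ⟨z, hzz⟩ := TW2C51.key hSQ hL hA hg hγ hh hN hx isCoprime_one_left h2 h1
    refine ⟨1, 0, z, monic_one, isCoprime_one_left, one_dvd _, ?_⟩
    have e1 : Pool.HYP.kap ((1 : L[X]).comp (C d * X)) = 1 := by
      unfold Pool.HYP.kap
      rw [one_comp, natDegree_one, pow_zero, one_mul]
    rw [e1]
    exact hzz
  · -- type (1, 0)
    have hπ := hL.pi_ne
    have hd0 : d ≠ 0 := by
      rintro rfl
      exact hd.1 (zero_div _)
    obtain ⟨ε, hε⟩ : ∃ ε : O, (ε : L) = d / π := ⟨⟨d / π, hd.2.1⟩, rfl⟩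
    have hdε : d = π * (ε : L) := by
      rw [hε]
      field_simp
    have hε1 : IsUnit ε := by
      refine isUnit_iff_exists_inv.2 ⟨⟨(d / π)⁻¹, hd.2.2⟩, ?_⟩
      apply Subtype.ext
      show (ε : L) * (d / π)⁻¹ = 1
      rw [hε, mul_inv_cancel₀ hd.1]
    obtain ⟨δ, hδ⟩ : ∃ δ : O, (δ : L) = d :=
      ⟨⟨π * (ε : L), mul_mem hL.pi_mem ε.2⟩, hdε.symm⟩
    have hδm : δ ∈ IsLocalRing.maximalIdeal O := by
      rw [RIP.mem_max hL, hδ]
      exact hd.2.1
    obtain ⟨b, hb⟩ : ∃ b : O, b = γ.eval c := ⟨_, rfl⟩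
    have hbu : IsUnit b := hb ▸ TyZ.unit_ev O hg hγ c
    obtain ⟨e, he⟩ : ∃ e : O, e = c + δ * b := ⟨_, rfl⟩
    obtain ⟨r, hr⟩ : ∃ r : O, r ^ 2 = b * γ.eval e := by
      obtain ⟨t, ht⟩ := Polynomial.sub_dvd_eval_sub e c γ
      have := hL.hens
      obtain ⟨r, hr⟩ := NON34.sqrt_unit (R := O) (LocB.two_unit hL) b (b * ((e - c) * t)) hbu (by
        rw [he, add_sub_cancel_left]
        exact Ideal.mul_mem_left _ _ (Ideal.mul_mem_right _ _ (Ideal.mul_mem_right _ _ hδm)))
      refine ⟨r, ?_⟩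
      rw [hr]
      linear_combination (-b) * ht + b * hb
    -- the point
    have hbL : (b : L) ≠ 0 := by
      intro h0
      have h1 : b = 0 := Subtype.ext h0
      rw [h1] at hbu
      exact not_isUnit_zero hbu
    have hrL : (r : L) ^ 2 = (b : L) * (oL O γ).eval (e : L) := by
      rw [TyZ.ev]
      exact congrArg Subtype.val hr
    have heu : IsUnit (γ.eval e) := TyZ.unit_ev O hg hγ e
    have heL : (oL O γ).eval (e : L) ≠ 0 := by
      rw [TyZ.ev]
      intro h0
      have h1 : γ.eval e = 0 := Subtype.ext h0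
      rw [h1] at heu
      exact not_isUnit_zero heu
    have heLc : (e : L) = (c : L) + d * (b : L) := by
      rw [← hδ]
      exact congrArg Subtype.val he
    have hcL : (oL O γ).eval (c : L) = (b : L) := by
      rw [TyZ.ev, hb]
    have hgm : (oL O γ).Monic := hγ.1.map _
    have hgd : (oL O γ).natDegree = 2 * g := by rw [hγ.1.natDegree_map, hγ.2.1]
    have hfm : (oL O ((X - C c) * γ)).Monic := by
      rw [hfO]
      exact (monic_X_sub_C _).mul hgm
    have hfd : (oL O ((X - C c) * γ)).natDegree = 2 * g + 1 := by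
      rw [hfO, (monic_X_sub_C _).natDegree_mul hgm, natDegree_X_sub_C, hgd]
      ring
    have hfe : (oL O ((X - C c) * γ)).eval (e : L) = d * (r : L) ^ 2 := by
      rw [hfO, eval_mul, eval_sub, eval_X, eval_C, hrL]
      linear_combination (oL O γ).eval (e : L) * heLc
    have hfe0 : (oL O ((X - C c) * γ)).eval (e : L) ≠ 0 := by
      rw [hfe, hrL]
      exact mul_ne_zero hd0 (mul_ne_zero hbL heL)
    have hde : ((oL O ((X - C c) * γ)).scaleRoots d).eval (d * (e : L)) =
        (d ^ (g + 1) * (r : L)) ^ 2 := by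
      rw [scaleRoots_eval_mul, hfd, hfe]
      ring
    have hde0 : ((oL O ((X - C c) * γ)).scaleRoots d).eval (d * (e : L)) ≠ 0 := by
      rw [scaleRoots_eval_mul, hfd]
      exact mul_ne_zero (pow_ne_zero _ hd0) hfe0
    -- the class
    have hk : Pool.HYP.kap ((X - C (d * (e : L)) : L[X]).comp (C d * X)) =
        C d * (C (e : L) - X) := by
      have e1 : (X - C (d * (e : L)) : L[X]).comp (C d * X) = C d * (X - C (e : L)) := by
        rw [sub_comp, X_comp, C_comp, C_mul]
        ring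
      have e2 : (C d * (X - C (e : L)) : L[X]).natDegree = 1 := by
        rw [natDegree_C_mul hd0, natDegree_X_sub_C]
      unfold Pool.HYP.kap
      rw [e1, e2]
      ring
    have hcop : IsCoprime (C d * (C (e : L) - X) : L[X]) (oL O ((X - C c) * γ)) := by
      refine IsCoprime.mul_left ?_ ?_
      · refine ⟨C d⁻¹, 0, ?_⟩
        rw [← C_mul, inv_mul_cancel₀ hd0, C_1]
        ring
      · have h1 : IsCoprime (X - C (e : L)) (oL O ((X - C c) * γ)) := by
          rw [(irreducible_X_sub_C (e : L)).coprime_iff_not_dvd, dvd_iff_isRoot]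
          exact hfe0
        have h2 := h1.neg_left
        rwa [neg_sub] at h2
    have hNh : NSq (oL O ((X - C c) * γ)) (C d * (C (e : L) - X)) := by
      unfold NSq
      rw [map_mul, map_mul, nmu.2.2.1 L (e : L) _ hfm, hfe, NMU.norm_C _ _ hfm, hfd]
      exact ⟨d ^ (g + 1) * (r : L), by ring⟩
    have hT : TyL O π c γ x (C d * (C (e : L) - X)) := by
      refine ⟨1, C ε * (C e - X), ?_, ?_, ?_, ?_⟩
      · have e1 : rd O (C ε * (C e - X)) =
            C (IsLocalRing.residue O ε) * (C (IsLocalRing.residue O e) - X) := by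
          show Polynomial.map _ _ = _
          simp only [Polynomial.map_mul, Polynomial.map_sub, map_C, map_X]
        rw [e1]
        refine IsCoprime.mul_left ?_ ?_
        · obtain ⟨v, hv⟩ := (hε1.map (IsLocalRing.residue O)).exists_left_inv
          refine ⟨C v, 0, ?_⟩
          rw [← C_mul, hv, C_1]
          ring
        · have h1 : IsCoprime (X - C (IsLocalRing.residue O e)) (rd O γ) := by
            rw [(irreducible_X_sub_C _).coprime_iff_not_dvd, dvd_iff_isRoot, IsRoot, eval_map,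
              eval₂_at_apply]
            exact (heu.map (IsLocalRing.residue O)).ne_zero
          have h2 := h1.neg_left
          rwa [neg_sub] at h2
      · have e1 : oL O (C ε * (C e - X)) = C (ε : L) * (C (e : L) - X) := by
          show Polynomial.map _ _ = _
          simp only [Polynomial.map_mul, Polynomial.map_sub, map_C, map_X]
          rfl
        have e2 : (C d : L[X]) = C π * C (ε : L) := by rw [← C_mul, ← hdε]
        rw [e1, e2, zpow_one]
        refine ⟨0, ?_⟩
        ring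
      · rw [hx1]
        exact Int.cast_one
      · rw [hx1]
        refine ⟨fun _ => ⟨d * (b : L), ?_⟩, fun _ => hx2⟩
        have e1 : ((1 : ZMod 2)).val = 1 := by decide
        rw [e1, pow_one, hcL, eval_mul, eval_C, eval_sub, eval_C, eval_X, heLc]
        ring
    obtain ⟨z, hzz⟩ := TW2C51.key hSQ hL hA hg hγ hh hN hx hcop hNh hT
    refine ⟨X - C (d * (e : L)), C (d ^ (g + 1) * (r : L)), z, monic_X_sub_C _, ?_, ?_, ?_⟩
    · rw [(irreducible_X_sub_C _).coprime_iff_not_dvd, dvd_iff_isRoot]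
      exact hde0
    · rw [dvd_iff_isRoot, IsRoot, eval_sub, eval_pow, eval_C, hde, sub_self]
    · rw [hk]
      exact hzz

end Pool.PRK
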